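import Mathlib
import Pool.Agent.N785.MG.Sys
import Pool.Agent.N785.MG.QF

/-!
# The Hardy-Littlewood formula in short windows: Maier's phenomenon for `a m² + b m + c`

Let `a > 0` and `b` be fixed. The conjecture of Hardy and Littlewood suggests that for `u` small compared to
`c` (and `c` of size `X`) the number of `u < m ≤ u + h` with `a m² + b m + c` prime is about
`M ∑_{u < m ≤ u + h} 1 / log (a m² + b m + c)`, `M = ε C(a, b, c) ∏_{p > 2, p ∣ gcd(a, b)} p / (p - 1)`, as soon as
this number tends to infinity. We show that this is false, by a constant factor, for windows of every length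
`h ≤ (log X)^Λ`, for a positive proportion of all the constant terms `c ≤ X`, and already for
`u ≤ exp((log X)^ε)`: some windows contain at least `(1 + δ)` times and some (for a positive proportion of the `c`)
at most `(1 - δ)` times the expected number.

Proof (Maier's matrix method, with the rows indexed by the classes of `c` modulo a product of primes). Let `P` be
the product of the primes `p ≤ z = (log X)^ε`, apart from the multiples of a possible exceptional modulus and of one
more prime. For a class `γ` modulo `P` the sum over `c ≡ γ` of the numbers of the primes `a m² + b m + c`,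
`u < m ≤ u + h`, is given by the prime number theorem for progressions modulo `P` and is proportional to the
number of the `m` in the window with `(a m² + b m + γ, P) = 1`. Its mean value over the `u` which have a given
root pattern modulo the primes `y < p ≤ z` (each such prime divides `a u² + b u + γ`, if there are roots) is a
product of local factors `1 - A_p(r)`, which deviates from the expected value because of the integers
`r ≤ h ≤ z^s` without prime factors in `(y, z]` (inclusion and exclusion; the sign depends on the parity). These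
deviations persist for a positive proportion of the classes `γ` (second moments over `γ`, the number of the roots
being on average one for each prime) and in windows of every smaller length `h` (averages over the windows).
Second moments over `c ≡ γ`, by the sieve of Selberg for pairs, pass from the mean values to a positive
proportion of the `c`; the constants `C(a, b, c)` are compared with the partial products for almost all `c`.
-/

set_option autoImplicit false

namespace Pool.Agent.Results.MP_a1177c_nt.IrregularWindows

open Finset Filter Topology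

/-- the triple `(a, b, c)` is admissible -/
def Admissible (a b c : ℤ) : Prop :=
  0 < a ∧ (∀ d : ℤ, d ∣ a → d ∣ b → d ∣ c → IsUnit d) ∧ ¬ ((2 : ℤ) ∣ a + b ∧ (2 : ℤ) ∣ c) ∧
    ¬ IsSquare (b ^ 2 - 4 * a * c)

/-- the number of `u < m ≤ v` for which `a m² + b m + c` is a (positive) prime -/
def primeCount (a b c : ℤ) (u v : ℕ) : ℕ :=
  #((Ioc u v).filter (fun m : ℕ => (a * (m : ℤ) ^ 2 + b * m + c).toNat.Prime))

/-- `ε = 2` if `a + b` is even and `ε = 1` if `a + b` is odd -/
noncomputable def eps (a b : ℤ) : ℝ := if (2 : ℤ) ∣ a + b then 2 else 1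

/-- the product `∏_{p > 2, p ∣ gcd(a, b)} p / (p - 1)` -/
noncomputable def gcdProd (a b : ℤ) : ℝ :=
  ∏ p ∈ (Int.gcd a b).primeFactors.filter (fun p => 2 < p), (p : ℝ) / (p - 1)

/-- the product `∏_{2 < p ≤ z, p ∤ a} (1 - (D / p) / (p - 1))`, where `D = b² - 4 a c` -/
noncomputable def partialC (a b c : ℤ) (z : ℕ) : ℝ :=
  ∏ p ∈ (Icc 3 z).filter (fun p : ℕ => p.Prime ∧ ¬ (p : ℤ) ∣ a),
    (1 - (jacobiSym (b ^ 2 - 4 * a * c) p : ℝ) / (p - 1))

/-- `S` is the value of the infinite product `C(a, b, c)` (over the primes in increasing order) -/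
def IsConstant (a b c : ℤ) (S : ℝ) : Prop := Tendsto (fun z => partialC a b c z) atTop (𝓝 S)

/-- the number of prime values with `u < m ≤ v` expected by Hardy and Littlewood, where `S = C(a, b, c)` -/
noncomputable def expected (a b c : ℤ) (S : ℝ) (u v : ℕ) : ℝ :=
  eps a b * S * gcdProd a b * ∑ m ∈ Ioc u v, 1 / Real.log ((a : ℝ) * m ^ 2 + b * m + c)

/-- **Maier's phenomenon for quadratic polynomials.** Let `a > 0`, `b`, `Λ ≥ 1`, `ε > 0` be fixed. There are
`δ, κ > 0` and `K` such that for all large `X` and every `h` with `K log X ≤ h ≤ (log X)^Λ` at least `κ X` of the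
`1 ≤ c ≤ X` are such that `(a, b, c)` is admissible, `C(a, b, c)` converges to some `S > 0`, and some window
`(u, u + h]` with `u ≤ exp((log X)^ε)` contains at least `(1 + δ)` times the expected number of `m` with
`a m² + b m + c` prime; and at least `κ X` of the `c` are such that some window contains at most `(1 - δ)` times
this number. -/
theorem result (a : ℤ) (ha : 0 < a) (b : ℤ) (Λ ε : ℝ) (hΛ : 1 ≤ Λ) (hε : 0 < ε) :
    ∃ δ κ K : ℝ, 0 < δ ∧ δ < 1 ∧ 0 < κ ∧ ∃ X₀ : ℕ, ∀ X : ℕ, X₀ ≤ X → ∀ h : ℕ,
      K * Real.log X ≤ h → (h : ℝ) ≤ (Real.log X) ^ Λ →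
      κ * X ≤ Nat.card {c : ℕ // c ∈ Icc 1 X ∧ Admissible a b c ∧ ∃ S : ℝ, 0 < S ∧ IsConstant a b c S ∧
        ∃ u : ℕ, (u : ℝ) ≤ Real.exp ((Real.log X) ^ ε) ∧
          (1 + δ) * expected a b c S u (u + h) ≤ primeCount a b c u (u + h)} ∧
      κ * X ≤ Nat.card {c : ℕ // c ∈ Icc 1 X ∧ Admissible a b c ∧ ∃ S : ℝ, 0 < S ∧ IsConstant a b c S ∧
        ∃ u : ℕ, (u : ℝ) ≤ Real.exp ((Real.log X) ^ ε) ∧
          (primeCount a b c u (u + h) : ℝ) ≤ (1 - δ) * expected a b c S u (u + h)} :=
  Pool.Agent.N785.MG.quad Pool.Agent.N785.MG.s_KA a ha b Λ ε hΛ hε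

end Pool.Agent.Results.MP_a1177c_nt.IrregularWindows
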